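import Pool.Agent.N675.Q.Stm
import Pool.Agent.N887.P.Gal

/-! Project QP (helper675), parts MOM and ZERO (by helper301). -/

set_option autoImplicit false
set_option linter.all false

namespace Pool.Agent.N301.QP

open Finset Pool.Agent.N675 Pool.Agent.N781.A Pool.Agent.N781.P Pool.Agent.N675.Q

open Classical in
theorem sum_do (S : Finset ℕ) (x : ℤ) :
    ∑ p ∈ (do let a ← S; pure (a : ℤ) : Finset ℤ).filter (fun p => p ∣ x), 1 / (p : ℝ) =
      ∑ p ∈ S.filter (fun p : ℕ => (p : ℤ) ∣ x), 1 / (p : ℝ) := by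
  have h1 : (do let a ← S; pure (a : ℤ) : Finset ℤ).filter (fun p => p ∣ x) =
      (S.filter (fun p : ℕ => (p : ℤ) ∣ x)).image (fun p : ℕ => (p : ℤ)) := by
    ext p
    simp only [Finset.bind_def, Finset.pure_def, Finset.mem_sup, Finset.mem_singleton,
      Finset.mem_filter, Finset.mem_image]
    constructor
    · rintro ⟨⟨n, hn, rfl⟩, h⟩
      exact ⟨n, ⟨hn, h⟩, rfl⟩
    · rintro ⟨n, ⟨hn, h⟩, rfl⟩
      exact ⟨⟨n, hn, rfl⟩, h⟩
  rw [h1, Finset.sum_image (fun a _ b _ h => by exact_mod_cast h)]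
  refine Finset.sum_congr rfl fun p _ => ?_
  push_cast
  rfl

theorem aff_update {r : ℕ} (m : Fin r → ℤ) (m₀ : ℤ) (z : Fin r → ℤ) (u : Fin r) (h : ℤ) :
    aff m m₀ (Function.update z u h) = m u * h + aff m m₀ (Function.update z u 0) := by
  unfold aff
  rw [← Finset.add_sum_erase _ _ (Finset.mem_univ u), ← Finset.add_sum_erase (a := u) Finset.univ
    (fun v => m v * Function.update z u 0 v) (Finset.mem_univ u)]
  simp only [Function.update_self]
  have h1 : ∀ v ∈ Finset.univ.erase u, m v * Function.update z u h v =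
      m v * Function.update z u 0 v := by
    intro v hv
    rw [Finset.mem_erase] at hv
    rw [Function.update_of_ne hv.1, Function.update_of_ne hv.1]
  rw [Finset.sum_congr rfl h1]
  ring

theorem card_Icc' (N : ℕ) : (Icc (-(N : ℤ)) N).card = 2 * N + 1 := by
  rw [Int.card_Icc]
  omega

theorem card_SB (r N : ℕ) : (SB r N).card = (2 * N + 1) ^ r := by
  unfold SB
  rw [Fintype.card_piFinset]
  simp only [card_Icc']
  simp

/-- averaging over one coordinate -/
theorem slice {r : ℕ} (N : ℕ) (u : Fin r) (f : (Fin r → ℤ) → ℝ) (c : ℝ)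
    (h : ∀ z, ∑ t ∈ Icc (-(N : ℤ)) N, f (Function.update z u t) ≤ c) :
    (2 * (N : ℝ) + 1) * ∑ z ∈ SB r N, f z ≤ (2 * (N : ℝ) + 1) ^ r * c := by
  have h1 := swap (fun _ : Fin r => Icc (-(N : ℤ)) N) u (Icc (-(N : ℤ)) N) f
  rw [Function.update_eq_self u (fun _ : Fin r => Icc (-(N : ℤ)) N), card_Icc'] at h1
  have h2 : ((2 * N + 1 : ℕ) : ℝ) = 2 * (N : ℝ) + 1 := by push_cast; ring
  rw [h2] at h1
  unfold SB
  rw [h1]
  calc ∑ z ∈ Fintype.piFinset (fun _ : Fin r => Icc (-(N : ℤ)) N),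
        ∑ t ∈ Icc (-(N : ℤ)) N, f (Function.update z u t)
      ≤ ∑ z ∈ Fintype.piFinset (fun _ : Fin r => Icc (-(N : ℤ)) N), c :=
        Finset.sum_le_sum fun z _ => h z
    _ = ((SB r N).card : ℝ) * c := by
        rw [Finset.sum_const, nsmul_eq_mul]
        rfl
    _ = (2 * (N : ℝ) + 1) ^ r * c := by
        rw [card_SB]
        push_cast
        ring

theorem shift_sum (N : ℕ) (F : ℤ → ℝ) :
    ∑ t ∈ Icc (-(N : ℤ)) N, F t = ∑ t ∈ Icc (1 : ℤ) ((2 * N + 1 : ℕ) : ℤ), F (t - (N + 1)) := by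
  refine Finset.sum_bij' (fun t _ => t + (N + 1)) (fun t _ => t - (N + 1)) ?_ ?_ ?_ ?_ ?_
  · intro t ht
    rw [mem_Icc] at ht ⊢
    push_cast
    omega
  · intro t ht
    rw [mem_Icc] at ht ⊢
    push_cast at ht
    omega
  · intro t _
    ring
  · intro t _
    ring
  · intro t _
    congr 1
    ring

theorem size {B D r : ℕ} (hB : 0 < B) (hD : 1 ≤ D) :
    (2 * ((B * D : ℕ) : ℝ) + 1) ^ r ≤ (3 * (B : ℝ)) ^ r * (D : ℝ) ^ r := by
  rw [← mul_pow]
  apply pow_le_pow_left₀ (by positivity)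
  have h1 : 1 ≤ B * D := Nat.one_le_iff_ne_zero.2 (by positivity)
  have h2 : (1 : ℝ) ≤ (B * D : ℕ) := by exact_mod_cast h1
  push_cast at h2 ⊢
  nlinarith

theorem no_dvd {w D : ℕ} {x : ℤ} (hx : x ≠ 0) (hw : x.natAbs ≤ w) {p : ℕ} (hp : p ∈ pw w D) :
    ¬ (p : ℤ) ∣ x := by
  intro h
  unfold pw at hp
  rw [mem_filter] at hp
  have h1 : p ∣ x.natAbs := Int.natCast_dvd.1 h
  have h2 := Nat.le_of_dvd (Int.natAbs_pos.2 hx) h1
  omega

theorem mom : S_MOM := by
  classical
  intro r B m m₀ C hB hC hne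
  by_cases hm : m = 0
  · have hm₀ : m₀ ≠ 0 := by
      rcases hne with h | h
      · exact absurd hm h
      · exact h
    refine ⟨m₀.natAbs, fun w hw => ⟨(3 * (B : ℝ)) ^ r, 1, fun D hD => ?_⟩⟩
    have haff : ∀ z : Fin r → ℤ, aff m m₀ z = m₀ := by
      intro z
      unfold aff
      rw [hm]
      simp
    refine le_trans (le_of_eq ?_) (size hB hD)
    rw [Finset.sum_congr rfl (g := fun _ => (1 : ℝ))]
    · rw [Finset.sum_const, nsmul_eq_mul, card_SB, mul_one]
      push_cast
      ring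
    · intro z _
      rw [haff, if_neg hm₀]
      have h1 : (pw w D).filter (fun p : ℕ => (p : ℤ) ∣ m₀) = ∅ := by
        apply Finset.filter_eq_empty_iff.2
        intro p hp
        exact no_dvd hm₀ hw hp
      rw [h1]
      simp
  · obtain ⟨u, hu⟩ : ∃ u, m u ≠ 0 := by
      by_contra hcon
      push Not at hcon
      exact hm (funext hcon)
    obtain ⟨C1, hC1, hgal⟩ := Pool.Agent.N887.P.gal C hC
    refine ⟨max 2 (m u).natAbs, fun w hw => ?_⟩
    have hw2 : 2 ≤ w := le_trans (le_max_left _ _) hw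
    have hwm : (m u).natAbs ≤ w := le_trans (le_max_right _ _) hw
    obtain ⟨H₀, hH₀⟩ := hgal w 1 hw2
    refine ⟨(3 * (B : ℝ)) ^ r * (1 + C1 / w), max 1 H₀, fun D hD => ?_⟩
    have hD1 : 1 ≤ D := le_trans (le_max_left _ _) hD
    have hDH : H₀ ≤ D := le_trans (le_max_right _ _) hD
    have hBD : D ≤ B * D := Nat.le_mul_of_pos_left D hB
    set N := B * D with hN
    set f : (Fin r → ℤ) → ℝ := fun z => (if aff m m₀ z = 0 then 0 else
        Real.exp (C * ∑ p ∈ (pw w D).filter (fun p : ℕ => (p : ℤ) ∣ aff m m₀ z), 1 / (p : ℝ)))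
      with hf
    have hcol : ∀ z : Fin r → ℤ, ∑ t ∈ Icc (-(N : ℤ)) N, f (Function.update z u t) ≤
        (2 * (N : ℝ) + 1) * (1 + C1 / w) := by
      intro z
      set e₀ : ℤ := aff m m₀ (Function.update z u 0) - m u * (N + 1) with he₀
      have h1 := hH₀ (2 * N + 1) D (by omega) (by rw [pow_one]; omega) (m u) e₀ hu
        (fun p hp hpd => by
          have h2 : p ∣ (m u).natAbs := Int.natCast_dvd.1 hpd
          exact (Nat.le_of_dvd (Int.natAbs_pos.2 hu) h2).trans hwm)
      unfold avr at h1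
      have hNpos : (0 : ℝ) < ((2 * N + 1 : ℕ) : ℝ) := by positivity
      rw [div_le_iff₀ hNpos] at h1
      rw [shift_sum N (fun t => f (Function.update z u t))]
      have h3 : ∀ t : ℤ, f (Function.update z u (t - (N + 1))) ≤
          (if m u * t + e₀ = 0 then 0 else
            Real.exp (C * ∑ p ∈ (pw w D).filter (fun p : ℕ => (p : ℤ) ∣ m u * t + e₀),
              1 / (p : ℝ)) - 1) + 1 := by
        intro t
        have h4 : aff m m₀ (Function.update z u (t - (N + 1))) = m u * t + e₀ := by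
          rw [aff_update, he₀]
          ring
        simp only [hf, h4]
        split_ifs
        · norm_num
        · linarith
      have h5 : ∑ t ∈ Icc (1 : ℤ) ((2 * N + 1 : ℕ) : ℤ), (if m u * t + e₀ = 0 then 0 else
            Real.exp (C * ∑ p ∈ (pw w D).filter (fun p : ℕ => (p : ℤ) ∣ m u * t + e₀),
              1 / (p : ℝ)) - 1) ≤ C1 / w * ((2 * N + 1 : ℕ) : ℝ) := by
        refine le_trans (le_of_eq ?_) h1
        refine Finset.sum_congr rfl fun t _ => ?_
        beta_reduce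
        by_cases h0 : m u * t + e₀ = 0
        · rw [if_pos h0, if_pos h0]
        · rw [if_neg h0, if_neg h0, ← sum_do]
      calc ∑ t ∈ Icc (1 : ℤ) ((2 * N + 1 : ℕ) : ℤ), f (Function.update z u (t - (N + 1)))
          ≤ ∑ t ∈ Icc (1 : ℤ) ((2 * N + 1 : ℕ) : ℤ), ((if m u * t + e₀ = 0 then 0 else
            Real.exp (C * ∑ p ∈ (pw w D).filter (fun p : ℕ => (p : ℤ) ∣ m u * t + e₀),
              1 / (p : ℝ)) - 1) + 1) := Finset.sum_le_sum fun t _ => h3 t
        _ ≤ C1 / w * ((2 * N + 1 : ℕ) : ℝ) + ((2 * N + 1 : ℕ) : ℝ) := by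
            rw [Finset.sum_add_distrib]
            refine add_le_add h5 (le_of_eq ?_)
            rw [Finset.sum_const, Int.card_Icc, nsmul_eq_mul, mul_one]
            congr 1
            omega
        _ = (2 * (N : ℝ) + 1) * (1 + C1 / w) := by
            push_cast
            ring
    have hs := slice N u f _ hcol
    have hNp : (0 : ℝ) < 2 * (N : ℝ) + 1 := by positivity
    have h6 : ∑ z ∈ SB r N, f z ≤ (2 * (N : ℝ) + 1) ^ r * (1 + C1 / w) := by
      have h7 : (2 * (N : ℝ) + 1) * ∑ z ∈ SB r N, f z ≤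
          (2 * (N : ℝ) + 1) * ((2 * (N : ℝ) + 1) ^ r * (1 + C1 / w)) := by
        refine hs.trans (le_of_eq ?_)
        ring
      exact le_of_mul_le_mul_left h7 hNp
    refine h6.trans ?_
    have h8 := size (r := r) hB hD1
    have h9 : (0 : ℝ) ≤ 1 + C1 / w := by positivity
    calc (2 * (N : ℝ) + 1) ^ r * (1 + C1 / w) ≤ ((3 * (B : ℝ)) ^ r * (D : ℝ) ^ r) * (1 + C1 / w) :=
          mul_le_mul_of_nonneg_right h8 h9
      _ = _ := by ring

theorem zero : S_ZERO := by
  classical
  intro r B m m₀ hne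
  by_cases hm : m = 0
  · have hm₀ : m₀ ≠ 0 := by
      rcases hne with h | h
      · exact absurd hm h
      · exact h
    refine ⟨0, fun D hD => ?_⟩
    have haff : ∀ z : Fin r → ℤ, aff m m₀ z = m₀ := by
      intro z
      unfold aff
      rw [hm]
      simp
    have h1 : (SB r (B * D)).filter (fun z => aff m m₀ z = 0) = ∅ := by
      apply Finset.filter_eq_empty_iff.2
      intro z _
      rw [haff]
      exact hm₀
    rw [h1]
    simp
  · obtain ⟨u, hu⟩ : ∃ u, m u ≠ 0 := by
      by_contra hcon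
      push Not at hcon
      exact hm (funext hcon)
    have hr : 1 ≤ r := by
      have := u.2
      omega
    refine ⟨(3 * (B : ℝ)) ^ r + 1, fun D hD => ?_⟩
    set N := B * D with hN
    set f : (Fin r → ℤ) → ℝ := fun z => if aff m m₀ z = 0 then 1 else 0 with hf
    have hcard : (((SB r N).filter (fun z => aff m m₀ z = 0)).card : ℝ) = ∑ z ∈ SB r N, f z := by
      rw [hf, Finset.sum_ite, Finset.sum_const_zero, add_zero, Finset.sum_const, nsmul_eq_mul,
        mul_one]
    have hcol : ∀ z : Fin r → ℤ, ∑ t ∈ Icc (-(N : ℤ)) N, f (Function.update z u t) ≤ 1 := by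
      intro z
      have h1 : ∑ t ∈ Icc (-(N : ℤ)) N, f (Function.update z u t) =
          (((Icc (-(N : ℤ)) N).filter (fun t => aff m m₀ (Function.update z u t) = 0)).card : ℝ) := by
        rw [hf]
        simp only
        rw [Finset.sum_ite, Finset.sum_const_zero, add_zero, Finset.sum_const, nsmul_eq_mul,
          mul_one]
      rw [h1]
      have h2 : ((Icc (-(N : ℤ)) N).filter
          (fun t => aff m m₀ (Function.update z u t) = 0)).card ≤ 1 := by
        apply Finset.card_le_one.2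
        intro a ha b hb
        rw [mem_filter, aff_update] at ha hb
        have h3 : m u * a = m u * b := by linarith [ha.2, hb.2]
        exact mul_left_cancel₀ hu h3
      exact_mod_cast h2
    have hs := slice N u f _ hcol
    rw [mul_one] at hs
    rw [hcard]
    have hf0 : 0 ≤ ∑ z ∈ SB r N, f z := Finset.sum_nonneg fun z _ => by
      rw [hf]
      simp only
      split_ifs <;> norm_num
    have hD1 : (1 : ℝ) ≤ D := by exact_mod_cast hD
    rcases Nat.eq_zero_or_pos B with hB | hB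
    · have hN0 : N = 0 := by rw [hN, hB, zero_mul]
      rw [hN0] at hs ⊢
      simp only [Nat.cast_zero, mul_zero, zero_add, one_pow, one_mul] at hs
      have h1 : (D : ℝ) ≤ (D : ℝ) ^ r := le_self_pow₀ hD1 (by omega)
      have h2 : (0 : ℝ) ≤ (3 * (B : ℝ)) ^ r := by positivity
      calc (∑ z ∈ SB r 0, f z) * D ≤ 1 * D := mul_le_mul_of_nonneg_right hs (by linarith)
        _ ≤ 1 * (D : ℝ) ^ r := by linarith
        _ ≤ ((3 * (B : ℝ)) ^ r + 1) * (D : ℝ) ^ r := by
            apply mul_le_mul_of_nonneg_right _ (by positivity)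
            linarith
    · have h1 : (D : ℝ) ≤ 2 * (N : ℝ) + 1 := by
        have : D ≤ N := Nat.le_mul_of_pos_left D hB
        have : (D : ℝ) ≤ N := by exact_mod_cast this
        have : (0 : ℝ) ≤ N := by positivity
        linarith
      have h2 := size (r := r) hB hD
      calc (∑ z ∈ SB r N, f z) * D ≤ (∑ z ∈ SB r N, f z) * (2 * (N : ℝ) + 1) :=
            mul_le_mul_of_nonneg_left h1 hf0
        _ = (2 * (N : ℝ) + 1) * ∑ z ∈ SB r N, f z := by ring
        _ ≤ (2 * (N : ℝ) + 1) ^ r := hs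
        _ ≤ (3 * (B : ℝ)) ^ r * (D : ℝ) ^ r := h2
        _ ≤ ((3 * (B : ℝ)) ^ r + 1) * (D : ℝ) ^ r := by
            apply mul_le_mul_of_nonneg_right _ (by positivity)
            linarith

end Pool.Agent.N301.QP
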